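import Pool.Agent.U299.CC.Ex

/-!
# MP_dce662_co, Q1: the excess of shortest cycle covers is unbounded on the family `F`

For every `c` there is a graph `G` in the family `F` with `scc(G) ≥ 4/3 |E(G)| + c`. The graphs are
obtained from the Petersen graph by repeating the construction with three equal graphs; in every
step the edge `c_0 a_0` of the last graph is the new edge `x y`.

A cycle cover gives a label set to every edge (the cycles through it), and its length is at least
`4/3 |E|` plus the number of vertices on more than two of the cycles (defects). The Petersen graph
has no cover without defects. If `G` has none, then in every defect-free labelling of the composed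
graph without the edge `c_0 a_0` the edges `c_0 b_0` and `c_0 u` are on one cycle each; so the
composed graph has no cover without defects, and the symmetric difference of the two outer label
sets is even. Three poles with even differences cannot be combined without a defect, and from then
on the number of defects is at least tripled in every step.
-/

set_option autoImplicit false

namespace Pool.Agent.Results.MP_dce662_co.UnboundedExcess

open Pool.Agent.U299.CC

/-- For every `c` there is a graph `G` in `F`, with a cycle cover, such that
`3 scc(G) ≥ 4 |E(G)| + 3 c`. -/
theorem result (c : ℕ) : ∃ (V : Type) (_ : Finite V) (G : SimpleGraph V),
    InF G ∧ Nonempty (CycleCover G) ∧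
    4 * (G.edgeSet.ncard : ℕ∞) + 3 * (c : ℕ∞) ≤ 3 * scc G :=
  excess' c

end Pool.Agent.Results.MP_dce662_co.UnboundedExcess
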